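import Pool.Agent.W622.BK.Stm

/-!
# BK-JACA: Jacobi, `Br3` of an alternating trilinear form is zero
-/

set_option autoImplicit false

namespace Pool.Agent.W214.BK

open Module Pool.Agent.W622.BK

universe u

lemma sum_rot {n : ℕ} {L : Type u} [AddCommGroup L] (t : Fin n → Fin n → Fin n → L)
    (key : ∀ l m i, t l m i + t m i l + t i l m = 0)
    (z1 : ∀ l i, t l l i = 0) (z2 : ∀ l i, t l i i = 0) (z3 : ∀ l i, t l i l = 0) :
    ∑ i, ∑ l, ∑ m, t l m i = 0 := by
  have split : ∀ l m i, t l m i = (if l < m ∧ l < i then t l m i else 0) +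
      (if m < l ∧ m < i then t l m i else 0) + (if i < l ∧ i < m then t l m i else 0) := by
    intro l m i
    by_cases h1 : l = m
    · subst h1; simp [z1]
    by_cases h2 : m = i
    · subst h2; simp [z2]
    by_cases h3 : l = i
    · subst h3; simp [z3]
    have g1 : (l : ℕ) ≠ m := fun h => h1 (Fin.ext h)
    have g2 : (m : ℕ) ≠ i := fun h => h2 (Fin.ext h)
    have g3 : (l : ℕ) ≠ i := fun h => h3 (Fin.ext h)
    simp only [Fin.lt_def]
    rcases lt_or_gt_of_ne g1 with a | a <;> rcases lt_or_gt_of_ne g2 with b | b <;>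
      rcases lt_or_gt_of_ne g3 with c | c
    · rw [if_pos (by omega), if_neg (by omega), if_neg (by omega)]; simp
    · omega
    · rw [if_pos (by omega), if_neg (by omega), if_neg (by omega)]; simp
    · rw [if_neg (by omega), if_neg (by omega), if_pos (by omega)]; simp
    · rw [if_neg (by omega), if_pos (by omega), if_neg (by omega)]; simp
    · rw [if_neg (by omega), if_pos (by omega), if_neg (by omega)]; simp
    · omega
    · rw [if_neg (by omega), if_neg (by omega), if_pos (by omega)]; simp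
  have e1 : ∑ i, ∑ l, ∑ m, t l m i =
      (∑ l, ∑ m, ∑ i, (if l < m ∧ l < i then t l m i else 0)) +
      (∑ l, ∑ m, ∑ i, (if m < l ∧ m < i then t l m i else 0)) +
      (∑ l, ∑ m, ∑ i, (if i < l ∧ i < m then t l m i else 0)) := by
    rw [← Finset.sum_add_distrib, ← Finset.sum_add_distrib]
    rw [Finset.sum_comm]
    refine Finset.sum_congr rfl (fun l _ => ?_)
    rw [← Finset.sum_add_distrib, ← Finset.sum_add_distrib]
    rw [Finset.sum_comm]
    refine Finset.sum_congr rfl (fun m _ => ?_)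
    rw [← Finset.sum_add_distrib, ← Finset.sum_add_distrib]
    refine Finset.sum_congr rfl (fun i _ => ?_)
    exact split l m i
  have e2 : (∑ l, ∑ m, ∑ i, (if m < l ∧ m < i then t l m i else 0)) =
      ∑ l, ∑ m, ∑ i, (if l < m ∧ l < i then t i l m else 0) := by
    rw [Finset.sum_comm]
    refine Finset.sum_congr rfl (fun m _ => ?_)
    rw [Finset.sum_comm]
    refine Finset.sum_congr rfl (fun i _ => ?_)
    refine Finset.sum_congr rfl (fun l _ => ?_)
    by_cases h : m < l ∧ m < i
    · rw [if_pos h, if_pos ⟨h.2, h.1⟩]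
    · rw [if_neg h, if_neg (fun h' => h ⟨h'.2, h'.1⟩)]
  have e3 : (∑ l, ∑ m, ∑ i, (if i < l ∧ i < m then t l m i else 0)) =
      ∑ l, ∑ m, ∑ i, (if l < m ∧ l < i then t m i l else 0) := by
    have s1 : (∑ l, ∑ m, ∑ i, (if i < l ∧ i < m then t l m i else 0)) =
        ∑ i, ∑ l, ∑ m, (if i < l ∧ i < m then t l m i else 0) := by
      rw [Finset.sum_comm]
      rw [show (∑ m, ∑ l, ∑ i, (if i < l ∧ i < m then t l m i else 0)) =
        ∑ m, ∑ i, ∑ l, (if i < l ∧ i < m then t l m i else 0) from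
        Finset.sum_congr rfl (fun m _ => Finset.sum_comm)]
      rw [Finset.sum_comm]
      exact Finset.sum_congr rfl (fun i _ => Finset.sum_comm)
    rw [s1]
  rw [e1, e2, e3, ← Finset.sum_add_distrib, ← Finset.sum_add_distrib]
  refine Finset.sum_eq_zero (fun l _ => ?_)
  rw [← Finset.sum_add_distrib, ← Finset.sum_add_distrib]
  refine Finset.sum_eq_zero (fun m _ => ?_)
  rw [← Finset.sum_add_distrib, ← Finset.sum_add_distrib]
  refine Finset.sum_eq_zero (fun i _ => ?_)
  by_cases h : l < m ∧ l < i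
  · rw [if_pos h, if_pos h, if_pos h]
    rw [← key l m i]
    abel
  · rw [if_neg h, if_neg h, if_neg h]
    simp

theorem t_JACA : S_JACA.{u} := by
  intro k _ L _ _ E _ _ _ j α h1 h2
  obtain ⟨b, hb⟩ : ∃ b : Basis (Fin (finrank k E)) k E, b = finBasis k E := ⟨_, rfl⟩
  obtain ⟨x, hx⟩ : ∃ x : Fin (finrank k E) → L, ∀ i, x i = j (b.coord i) := ⟨_, fun _ => rfl⟩
  have skew1 : ∀ a e c, α a e c = - α e a c := by
    intro a e c
    have h := h1 (a + e) c
    simp only [map_add, LinearMap.add_apply, h1, zero_add, add_zero] at h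
    exact eq_neg_of_add_eq_zero_left (by rw [add_comm]; exact h)
  have skew2 : ∀ a e c, α a e c = - α a c e := by
    intro a e c
    have h := h2 a (e + c)
    simp only [map_add, LinearMap.add_apply, h2, zero_add, add_zero] at h
    exact eq_neg_of_add_eq_zero_left (by first | exact h | (rw [add_comm]; exact h))
  have expand : ∀ (i l : Fin (finrank k E)),
      j ((α.compr₂ (LinearMap.applyₗ (b i))) (b l)) = ∑ m, α (b l) (b m) (b i) • x m := by
    intro i l
    have e : (α.compr₂ (LinearMap.applyₗ (b i))) (b l) = ∑ m, α (b l) (b m) (b i) • b.coord m := by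
      refine b.ext (fun m => ?_)
      rw [LinearMap.sum_apply]
      simp only [LinearMap.compr₂_apply, LinearMap.applyₗ_apply_apply, LinearMap.smul_apply,
        Basis.coord_apply, Basis.repr_self, smul_eq_mul]
      rw [Finset.sum_eq_single m]
      · simp
      · intro m' _ hm'
        rw [Finsupp.single_eq_of_ne (by first | exact hm' | exact hm'.symm), mul_zero]
      · intro h
        exact absurd (Finset.mem_univ m) h
    rw [e, map_sum]
    refine Finset.sum_congr rfl (fun m _ => ?_)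
    rw [map_smul, hx]
  have hB : Br3 j α = ∑ i, ∑ l, ∑ m, α (b l) (b m) (b i) • ⁅⁅x l, x m⁆, x i⁆ := by
    unfold Br3 Br
    rw [← hb]
    refine Finset.sum_congr rfl (fun i _ => ?_)
    rw [← hx i, _root_.sum_lie]
    refine Finset.sum_congr rfl (fun l _ => ?_)
    rw [expand, ← hx l, _root_.lie_sum, _root_.sum_lie]
    refine Finset.sum_congr rfl (fun m _ => ?_)
    rw [lie_smul, smul_lie]
  rw [hB]
  refine sum_rot (fun l m i => α (b l) (b m) (b i) • ⁅⁅x l, x m⁆, x i⁆) ?_ ?_ ?_ ?_
  · intro l m i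
    have c1 : α (b m) (b i) (b l) = α (b l) (b m) (b i) := by
      rw [skew2, skew1, neg_neg]
    have c2 : α (b i) (b l) (b m) = α (b l) (b m) (b i) := by
      rw [skew1, skew2, neg_neg]
    rw [c1, c2, ← smul_add, ← smul_add]
    have hj := lie_jacobi (x i) (x l) (x m)
    have e : ⁅⁅x l, x m⁆, x i⁆ + ⁅⁅x m, x i⁆, x l⁆ + ⁅⁅x i, x l⁆, x m⁆ =
        -(⁅x i, ⁅x l, x m⁆⁆ + ⁅x l, ⁅x m, x i⁆⁆ + ⁅x m, ⁅x i, x l⁆⁆) := by
      rw [← lie_skew (x i) ⁅x l, x m⁆, ← lie_skew (x l) ⁅x m, x i⁆, ← lie_skew (x m) ⁅x i, x l⁆]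
      abel
    rw [e, hj, neg_zero, smul_zero]
  · intro l i
    rw [h1, zero_smul]
  · intro l i
    rw [h2, zero_smul]
  · intro l i
    rw [skew2, h1, neg_zero, zero_smul]

end Pool.Agent.W214.BK
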